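import Pool.Agent.Mg.F655169.Gfe3d60
import Pool.Agent.MP_655169_nt.GelAux

open scoped IntermediateField

namespace Pool.Agent.Results.MP_655169_nt.CarlitzGelfond

open Pool.Agent.MP_655169_nt

theorem result {F E : Type*} [Field F] [Fintype F] [NormedField E] [IsUltrametricDist E]
    [CompleteSpace E] [Algebra F E] (θ : E) (hθ : 1 < ‖θ‖) (l : E) (hl : l ≠ 0)
    (hα : IsAlgebraic F⟮θ⟯ (carlitzExp (Fintype.card F) θ l)) (m : ℕ) (β : Fin m → E)
    (hβ : ∀ i, IsAlgebraic F⟮θ⟯ (β i))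
    (hind : LinearIndependent F⟮θ⟯ (Fin.cons 1 β : Fin (m + 1) → E)) :
    AlgebraicIndependent F⟮θ⟯
      (Fin.cons l (fun i => carlitzExp (Fintype.card F) θ (β i * l)) : Fin (m + 1) → E) := by
  set x : Fin (m + 1) → E := fun i => (Fin.cons 1 β : Fin (m + 1) → E) i * l with hx
  have hxi : LinearIndependent F⟮θ⟯ x :=
    hind.map' (LinearMap.mulRight F⟮θ⟯ l)
      (LinearMap.ker_eq_bot.mpr (fun a b h => mul_right_cancel₀ hl h))
  have hmain := Pool.Agent.MP_ee2255_nt.T.main θ hθ (m + 1) x hxi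
  set T : Set E := Set.range x ∪ Set.range fun i => carlitzExp (Fintype.card F) θ (x i) with hT
  have hx0 : x 0 = l := by simp [hx]
  have hxs : ∀ i : Fin m, x i.succ = β i * l := fun i => by simp [hx]
  have hxm : ∀ i, x i ∈ IntermediateField.adjoin F⟮θ⟯ T := fun i =>
    IntermediateField.subset_adjoin _ _ (Or.inl ⟨i, rfl⟩)
  have hem : ∀ i, carlitzExp (Fintype.card F) θ (x i) ∈ IntermediateField.adjoin F⟮θ⟯ T :=
    fun i => IntermediateField.subset_adjoin _ _ (Or.inr ⟨i, rfl⟩)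
  refine algInd_of_trdeg (m + 1) T _ ?_ ?_ hmain
  · intro i
    refine Fin.cases ?_ (fun j => ?_) i
    · simpa [hx0] using hxm 0
    · simpa [hxs] using hem j.succ
  · rintro t (⟨i, rfl⟩ | ⟨i, rfl⟩)
    · refine Fin.cases ?_ (fun j => ?_) i
      · exact Or.inr ⟨1, 0, isAlgebraic_one, one_mem _, by simp [hx0]⟩
      · refine Or.inr ⟨β j, 0, hβ j, ?_, by simp [hxs]⟩
        have h1 := div_mem (hxm j.succ) (hxm 0)
        rwa [hxs, hx0, mul_div_cancel_right₀ _ hl] at h1
    · refine Fin.cases ?_ (fun j => ?_) i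
      · exact Or.inl (by simpa [hx0] using hα)
      · exact Or.inr ⟨1, j.succ, isAlgebraic_one, one_mem _, by simp [hxs]⟩

end Pool.Agent.Results.MP_655169_nt.CarlitzGelfond
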