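import Pool.Agent.Mg.F655169b.G573aa7
import Pool.Agent.Mg.F655169b.Gee6437

namespace Pool.Agent.Results.MP_655169_nt.FewLines

/-- Let `β` be an irrational algebraic number and `V` a rational space of logarithms of algebraic
numbers of finite dimension `r ≥ 2`.  There is a set `T` of at most `2 ^ (r - 1)` numbers, lying in
two proper subspaces of `V`, such that `L` and `exp (β L)` are algebraically independent for every
nonzero `L` in `V` that is not a rational multiple of an element of `T`. -/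
theorem result (β : ℂ) (hβ : IsAlgebraic ℚ β) (hirr : ¬ ∃ q : ℚ, (q : ℂ) = β)
    (V : Submodule ℚ ℂ) [FiniteDimensional ℚ V] (hV : ∀ L ∈ V, IsAlgebraic ℚ (Complex.exp L))
    (hr : 2 ≤ Module.finrank ℚ V) :
    ∃ (T : Finset ℂ) (H₁ H₂ : Submodule ℚ ℂ), T.card ≤ 2 ^ (Module.finrank ℚ V - 1) ∧
      H₁ < V ∧ H₂ < V ∧ (∀ t ∈ T, t ∈ H₁ ∨ t ∈ H₂) ∧
      ∀ L ∈ V, L ≠ 0 → (∀ t ∈ T, ∀ q : ℚ, L ≠ (q : ℂ) * t) →
        AlgebraicIndependent ℚ ![L, Complex.exp (β * L)] :=
  Pool.Agent.MP_655169_nt.FL.fewLines Pool.Agent.MP_655169_nt.FL.num β hβ hirr V hV hr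

end Pool.Agent.Results.MP_655169_nt.FewLines
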