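import Pool.Agent.Mg.F655169a.Gd6ce2c

namespace Pool.Agent.Results.MP_655169_nt.LogNotInField

/-- Let `β` be a quadratic irrational algebraic integer, `L ≠ 0`, and `F` a number field in `ℂ`
containing `β` and `α = exp L`, of degree at most `2`, or at most `4` and not real.  Then
`L = log α` does not lie in `F(α^β)`, `α^β = exp (β L)`. -/
theorem result (β L : ℂ) (a b : ℤ) (hβ : β ^ 2 = (a : ℂ) * β + (b : ℂ))
    (hirr : ∀ r : ℚ, β ≠ (r : ℂ)) (hL : L ≠ 0) (F : IntermediateField ℚ ℂ)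
    [FiniteDimensional ℚ F] (hβF : β ∈ F) (hα : Complex.exp L ∈ F)
    (hF : Module.finrank ℚ F ≤ 2 ∨ (Module.finrank ℚ F ≤ 4 ∧ ∃ x ∈ F, x.im ≠ 0)) :
    L ∉ IntermediateField.adjoin F ({Complex.exp (β * L)} : Set ℂ) :=
  LogPow2.main β a b hβ hirr L hL F hβF hα hF

end Pool.Agent.Results.MP_655169_nt.LogNotInField
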